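import Pool.Agent.H447.IPX.H201_Core

/-!
# Bounded advice and a bounded number of changes of mind
-/

set_option autoImplicit false

namespace Pool.Agent.H201.AD

open Nat.Partrec (Code)

lemma computable_decide_eq : Computable fun z : ℕ × ℕ => decide (z.1 = z.2) := by
  have h : PrimrecPred fun z : ℕ × ℕ => z.1 = z.2 := Primrec.eq.comp Primrec.fst Primrec.snd
  exact (show Primrec fun z : ℕ × ℕ => decide (z.1 = z.2) from h.decide).to_comp

lemma computable_decide_le : Computable fun z : ℕ × ℕ => decide (z.1 ≤ z.2) := by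
  have h : PrimrecPred fun z : ℕ × ℕ => z.1 ≤ z.2 := Primrec.nat_le.comp Primrec.fst Primrec.snd
  exact (show Primrec fun z : ℕ × ℕ => decide (z.1 ≤ z.2) from h.decide).to_comp

/-- the number of changes of `G (j, ·)` before `s` -/
def changes (G : ℕ × ℕ → ℕ) (j : ℕ) : ℕ → ℕ
  | 0 => 0
  | s + 1 => changes G j s + if G (j, s + 1) = G (j, s) then 0 else 1

lemma changes_computable {G : ℕ × ℕ → ℕ} (hG : Computable G) :
    Computable fun a : ℕ × ℕ => changes G a.1 a.2 := by
  have h1 : Computable₂ fun (a : ℕ × ℕ) (y : ℕ × ℕ) =>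
      y.2 + if G (a.1, y.1 + 1) = G (a.1, y.1) then 0 else 1 := by
    have a1 : Computable fun z : (ℕ × ℕ) × (ℕ × ℕ) => G (z.1.1, z.2.1 + 1) :=
      hG.comp (Computable.pair (Computable.fst.comp Computable.fst)
        (Computable.succ.comp (Computable.fst.comp Computable.snd)))
    have a2 : Computable fun z : (ℕ × ℕ) × (ℕ × ℕ) => G (z.1.1, z.2.1) :=
      hG.comp (Computable.pair (Computable.fst.comp Computable.fst)
        (Computable.fst.comp Computable.snd))
    have a3 : Computable fun z : (ℕ × ℕ) × (ℕ × ℕ) =>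
        decide (G (z.1.1, z.2.1 + 1) = G (z.1.1, z.2.1)) :=
      computable_decide_eq.comp (Computable.pair a1 a2)
    have a4 : Computable fun z : (ℕ × ℕ) × (ℕ × ℕ) =>
        (bif decide (G (z.1.1, z.2.1 + 1) = G (z.1.1, z.2.1)) then 0 else 1 : ℕ) :=
      Computable.cond a3 (Computable.const 0) (Computable.const 1)
    have a5 := (Primrec.nat_add.to_comp).comp (Computable.snd.comp Computable.snd) a4
    refine a5.of_eq fun z => ?_
    by_cases h : G (z.1.1, z.2.1 + 1) = G (z.1.1, z.2.1) <;> simp [h]
  refine (Computable.nat_rec Computable.snd (Computable.const 0) h1).of_eq fun a => ?_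
  obtain ⟨j, s⟩ := a
  induction s with
  | zero => rfl
  | succ s ih =>
    simp only at ih ⊢
    simp only [changes, ← ih]

lemma changes_mono (G : ℕ × ℕ → ℕ) (j : ℕ) : Monotone (changes G j) :=
  monotone_nat_of_le_succ fun s => by simp [changes]

lemma eq_of_changes_eq {G : ℕ × ℕ → ℕ} {j s s' : ℕ} (h : s ≤ s')
    (h1 : changes G j s' = changes G j s) : G (j, s') = G (j, s) := by
  induction s', h using Nat.le_induction with
  | base => rfl
  | succ s' hs ih =>
    have h2 := changes_mono G j hs
    simp only [changes] at h1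
    by_cases h3 : G (j, s' + 1) = G (j, s')
    · rw [h3]
      exact ih (by simpa [h3] using h1)
    · simp [h3] at h1
      omega

lemma changes_eq_card (G : ℕ × ℕ → ℕ) (j s : ℕ) :
    changes G j s = ((Finset.range s).filter fun s => G (j, s + 1) ≠ G (j, s)).card := by
  induction s with
  | zero => simp [changes]
  | succ s ih =>
    rw [changes, ih, Finset.range_add_one, Finset.filter_insert]
    by_cases h : G (j, s + 1) = G (j, s)
    · simp [h]
    · rw [if_pos h, if_neg h, Finset.card_insert_of_notMem (by simp)]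

/-- From a procedure `G` which changes its mind at most `k` times to `k + 1` guesses. -/
theorem guesses_of_mind_changes {G : ℕ × ℕ → ℕ} (hG : Computable G) :
    ∃ F : ℕ × ℕ →. ℕ, Partrec F ∧ ∀ k j s₀ : ℕ, (∀ s ≥ s₀, G (j, s) = G (j, s₀)) →
      {s | G (j, s + 1) ≠ G (j, s)}.ncard ≤ k → ∃ b < k + 1, G (j, s₀) ∈ F (j, b) := by
  let p : ℕ × ℕ → ℕ → Bool := fun a s => decide (a.2 ≤ changes G a.1 s)
  have hp : Computable₂ p := by
    have a1 : Computable fun z : (ℕ × ℕ) × ℕ => changes G z.1.1 z.2 :=
      (changes_computable hG).comp (Computable.pair (Computable.fst.comp Computable.fst)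
        Computable.snd)
    have a2 : Computable fun z : (ℕ × ℕ) × ℕ => z.1.2 := Computable.snd.comp Computable.fst
    have a3 : Computable fun z : (ℕ × ℕ) × ℕ => (z.1.2, changes G z.1.1 z.2) :=
      Computable.pair a2 a1
    have a4 : Computable fun z : (ℕ × ℕ) × ℕ => decide (z.1.2 ≤ changes G z.1.1 z.2) :=
      (computable_decide_le.comp a3).of_eq fun z => rfl
    exact a4
  have h1 : Partrec fun a : ℕ × ℕ => Nat.rfind fun s => Part.some (p a s) :=
    Partrec.rfind hp.partrec₂
  have h2 : Partrec₂ fun (a : ℕ × ℕ) (s : ℕ) => (Part.some (G (a.1, s)) : Part ℕ) :=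
    (hG.comp (Computable.pair (Computable.fst.comp Computable.fst) Computable.snd)).partrec
  refine ⟨fun a => (Nat.rfind fun s => Part.some (p a s)).bind fun s => Part.some (G (a.1, s)),
    h1.bind h2, fun k j s₀ h3 h4 => ?_⟩
  have h5 : {s | G (j, s + 1) ≠ G (j, s)} ⊆ ↑(Finset.range s₀) := by
    intro s hs
    rw [Finset.coe_range, Set.mem_Iio]
    by_contra h
    exact hs (by rw [h3 (s + 1) (by omega), h3 s (by omega)])
  have h6 : changes G j s₀ ≤ k := by
    rw [changes_eq_card, ← Set.ncard_coe_finset]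
    refine (Set.ncard_le_ncard ?_ ((Finset.finite_toSet _).subset h5)).trans h4
    intro s hs
    exact (Finset.mem_filter.1 hs).2
  refine ⟨changes G j s₀, by omega, ?_⟩
  have h7 : (Nat.rfind fun s => Part.some (p (j, changes G j s₀) s)).Dom :=
    Nat.rfind_dom.mpr ⟨s₀, by simp [p], fun _ => trivial⟩
  have h8 := Part.get_mem h7
  set s := (Nat.rfind fun s => Part.some (p (j, changes G j s₀) s)).get h7 with hs
  have h9 := Nat.rfind_spec h8
  have h10 : changes G j s₀ ≤ changes G j s := by simpa [p] using h9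
  have h11 : s ≤ s₀ := by
    by_contra h
    have := Nat.rfind_min h8 (m := s₀) (by omega)
    simp [p] at this
  have h12 := eq_of_changes_eq h11 (le_antisymm h10 (changes_mono G j h11))
  refine Part.mem_bind h8 ?_
  rw [← h12]
  exact Part.mem_some _

end Pool.Agent.H201.AD
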